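import Pool.Agent.H69.LQ.Lib

/-!
# MP_8f7db2_an, board lqm_modules: row CE (the centre)
-/

set_option autoImplicit false

open MeasureTheory Metric Set
open scoped ENNReal
open Pool.Agent.H85.LK (E adm lam Ann)
open Pool.Agent.H69.LQ

namespace Pool.Agent.H2.LQ

theorem gauss_int {N : ℕ} (Ω : Set (E N)) (hfin : volume Ω ≠ ⊤) (z : E N) :
    IntegrableOn (fun x : E N => Real.exp (-‖x - z‖ ^ 2)) Ω := by
  refine Measure.integrableOn_of_bounded (M := 1) hfin (by fun_prop) ?_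
  refine ae_of_all _ fun x => ?_
  rw [Real.norm_eq_abs, abs_of_pos (Real.exp_pos _), Real.exp_le_one_iff]
  nlinarith [sq_nonneg ‖x - z‖]

theorem int_bounds {N : ℕ} (Ω A : Set (E N)) (hA : MeasurableSet A) (hΩ : MeasurableSet Ω)
    (hfin : volume Ω ≠ ⊤) (hsub : A ⊆ Ω) (z : E N) :
    (∫ x in A, Real.exp (-‖x - z‖ ^ 2)) ≤ ∫ x in Ω, Real.exp (-‖x - z‖ ^ 2) ∧
    (∫ x in Ω, Real.exp (-‖x - z‖ ^ 2)) ≤
      (∫ x in A, Real.exp (-‖x - z‖ ^ 2)) + (volume.real Ω - volume.real A) := by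
  have h1 := gauss_int Ω hfin z
  have h2 := setIntegral_sdiff hA h1 hsub
  have hd : volume (Ω \ A) ≠ ⊤ := ne_top_of_le_ne_top hfin (measure_mono sdiff_subset)
  have h3 : 0 ≤ ∫ x in Ω \ A, Real.exp (-‖x - z‖ ^ 2) :=
    integral_nonneg fun x => (Real.exp_pos _).le
  have h4 : (∫ x in Ω \ A, Real.exp (-‖x - z‖ ^ 2)) ≤ volume.real (Ω \ A) := by
    have h5 : (∫ x in Ω \ A, Real.exp (-‖x - z‖ ^ 2)) ≤ ∫ _ in Ω \ A, (1 : ℝ) := by
      refine setIntegral_mono (gauss_int _ hd z) (integrableOn_const hd) fun x => ?_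
      rw [Real.exp_le_one_iff]
      nlinarith [sq_nonneg ‖x - z‖]
    simpa using h5
  have h6 : volume.real (Ω \ A) = volume.real Ω - volume.real A :=
    measureReal_sdiff hsub hA hfin
  constructor <;> linarith

theorem pf_CE (hCD : T_CD) (hCM : T_CM) (hCB : T_CB) : T_CE := by
  intro N ε hN hε
  obtain ⟨k, hk, hk1⟩ := hCB N ε hN hε
  set β : ℝ := volume.real (ball (0 : E N) 1) with hβ
  have hβ0 : 0 ≤ β := measureReal_nonneg
  have hden : 0 < 4 * (β * N + 1) := by positivity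
  set κ : ℝ := min (1 / 2) (k / (4 * (β * N + 1))) with hκ
  have hκ0 : 0 < κ := lt_min (by norm_num) (by positivity)
  have hκ1 : κ ≤ 1 / 2 := min_le_left _ _
  have hκ2 : κ * (4 * (β * N + 1)) ≤ k := by
    rw [← le_div_iff₀ hden]
    exact min_le_right _ _
  refine ⟨κ, hκ0, by linarith, fun Ω c hΩ hvol hsub => ?_⟩
  have hfinB : volume (ball (0 : E N) 1) ≠ ⊤ := measure_ball_lt_top.ne
  have hfin : volume Ω ≠ ⊤ := hvol ▸ hfinB
  have hpos : 0 < volume Ω := by
    rw [hvol]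
    exact measure_ball_pos _ _ one_pos
  obtain ⟨o, ho⟩ := hCM N Ω hN hΩ.measurableSet hfin hpos
  refine ⟨o, ?_, hCD N Ω o hΩ.measurableSet hfin ho⟩
  by_contra hcon
  push Not at hcon
  have hcb := hk1 o c hcon.le
  have hr : 0 < 1 - κ := by linarith
  have hvA : volume.real (ball c (1 - κ)) = (1 - κ) ^ N * β := by
    rw [measureReal_def, Measure.addHaar_ball_of_pos _ _ hr, ENNReal.toReal_mul,
      ENNReal.toReal_ofReal (by positivity), hβ, measureReal_def]
    simp
  have hvc : volume.real (ball c 1) = β := by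
    rw [measureReal_def, Measure.addHaar_ball_center, hβ, measureReal_def]
  have hvΩ : volume.real Ω = β := by
    rw [measureReal_def, hvol, hβ, measureReal_def]
  have hbern : 1 - N * κ ≤ (1 - κ) ^ N := by
    have := one_add_mul_le_pow (a := -κ) (by linarith) N
    have h2 : (1 : ℝ) + -κ = 1 - κ := by ring
    rw [h2] at this
    linarith
  have hm : β - (1 - κ) ^ N * β ≤ k / 4 := by
    have h1 : β - (1 - κ) ^ N * β ≤ β * N * κ := by nlinarith
    have h2 : β * N * κ ≤ k / 4 := by nlinarith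
    linarith
  have hsub2 : ball c (1 - κ) ⊆ ball c 1 := ball_subset_ball (by linarith)
  have hfc : volume (ball c 1) ≠ ⊤ := measure_ball_lt_top.ne
  obtain ⟨a1, a2⟩ := int_bounds Ω (ball c (1 - κ)) measurableSet_ball hΩ.measurableSet hfin hsub c
  obtain ⟨a3, a4⟩ := int_bounds Ω (ball c (1 - κ)) measurableSet_ball hΩ.measurableSet hfin hsub o
  obtain ⟨b1, b2⟩ := int_bounds (ball c 1) (ball c (1 - κ)) measurableSet_ball measurableSet_ball
    hfc hsub2 c
  obtain ⟨b3, b4⟩ := int_bounds (ball c 1) (ball c (1 - κ)) measurableSet_ball measurableSet_ball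
    hfc hsub2 o
  rw [hvA, hvΩ] at a2 a4
  rw [hvA, hvc] at b2 b4
  have h7 := ho c
  linarith

end Pool.Agent.H2.LQ
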